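import Mathlib
import Pool.Agent.MP_4cde56_an.Defs
import Pool.Agent.MP_4cde56_an.ND.Pf

set_option autoImplicit false

namespace Pool.Agent.Results.MP_4cde56_an.CortexIffDiscrete

open MeasureTheory Pool.Agent.MP_4cde56_an

/-- The measure algebra of a second-countable locally compact abelian group is a cortex algebra
exactly when the group is discrete. -/
theorem result (G : Type) [AddCommGroup G] [TopologicalSpace G] [IsTopologicalAddGroup G]
    [T2Space G] [LocallyCompactSpace G] [SecondCountableTopology G] [MeasurableSpace G]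
    [BorelSpace G] :
    (∀ μ : ComplexMeasure G, IsFiniteMeasure μ.variation ∧ μ.variation.Regular) ∧
    ((∀ φ : ComplexMeasure G →ₗ[ℂ] ℂ, φ ≠ 0 → (∀ μ ν, φ (conv μ ν) = φ μ * φ ν) →
      ∀ (n : ℕ) (μ : Fin n → ComplexMeasure G), (∀ j, φ (μ j) = 0) →
        (⨅ (ν : ComplexMeasure G) (_ : ν.variation Set.univ = 1),
          ∑ j, (conv (μ j) ν).variation Set.univ) = 0) ↔ DiscreteTopology G) :=
  ⟨fun μ => haveI := ND.finite_variation μ; ⟨inferInstance, inferInstance⟩, ND.cortex_iff G⟩

end Pool.Agent.Results.MP_4cde56_an.CortexIffDiscrete
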